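import Pool.Agent.R617.LD.Poly

/-!
# 3SUM-Indexing: time times degree

Two arrays of `n` numbers of `b` bits are given by their `2 n b` bits. A random data structure
stores arbitrarily many cells of `w` bits; for given coins each bit of each cell is a polynomial of
degree at most `d` over `ZMod 2` in the bits of the arrays (for instance any function of `d` bits,
and for `d = 1` all parities). The query `z` is answered by an adaptive program. See
`Pool/Agent/R617/LD/Core.lean`.
-/

set_option autoImplicit false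

namespace Pool.Agent.Results.MP_e016b3_lc.DegreeMemory

open Finset Pool.Agent.R617.LD

variable {n b : ℕ}

/-- the bits of the two arrays -/
abbrev Pos (n b : ℕ) : Type := Fin 2 × Fin n × Fin b

/-- the entry number `i` of the array number `k` -/
def entry (x : Pos n b → ZMod 2) (k : Fin 2) (i : Fin n) : ℕ := val (fun t => x (k, i, t))

/-- `z` is the sum of an entry of the first array and an entry of the second array -/
def IsSum (x : Pos n b → ZMod 2) (z : Fin (2 ^ (b + 1))) : Prop :=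
  ∃ i j, entry x 0 i + entry x 1 j = z

/-- the arrays with given numbers -/
def arr (b : ℕ) (a : Fin 2 → Fin n → ℕ) : Pos n b → ZMod 2 := fun v => enc b (a v.1 v.2.1) v.2.2

lemma entry_arr (a : Fin 2 → Fin n → ℕ) (ha : ∀ k i, a k i < 2 ^ b) (k : Fin 2) (i : Fin n) :
    entry (arr b a) k i = a k i := val_enc b _ (ha k i)

/-! ## The two instances -/

/-- `0, …, 0` and `1, …, 2 ^ k - 1, 1, …` -/
def inst1 (n k : ℕ) : Fin 2 → Fin n → ℕ := fun r j =>
  if r = 0 then 0 else if (j : ℕ) + 1 < 2 ^ k then j + 1 else 1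

/-- `0, 2, …, 2 n - 2` and `1, 3, …, 2 n - 1` -/
def inst2 (n : ℕ) : Fin 2 → Fin n → ℕ := fun r j => if r = 0 then 2 * j else 2 * j + 1

/-- free bits of the first instance: the lowest `k` bits of the first array -/
def U1 (n b k : ℕ) : Finset (Pos n b) := univ.filter (fun v => v.1 = 0 ∧ (v.2.2 : ℕ) < k)

lemma card_U1 {k : ℕ} (hkb : k ≤ b) : (U1 n b k).card = n * k := by
  have h1 : U1 n b k = ({0} : Finset (Fin 2)) ×ˢ ((univ : Finset (Fin n)) ×ˢ
      univ.filter (fun t : Fin b => (t : ℕ) < k)) := by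
    ext ⟨r, i, t⟩
    simp [U1, Finset.mem_product, and_comm, eq_comm]
  have h2 : univ.filter (fun t : Fin b => (t : ℕ) < k) =
      (univ : Finset (Fin k)).map (Fin.castLEEmb hkb) := by
    ext t
    rw [Finset.mem_filter, Finset.mem_map]
    constructor
    · rintro ⟨-, ht⟩
      exact ⟨⟨t, ht⟩, Finset.mem_univ _, rfl⟩
    · rintro ⟨t', -, rfl⟩
      exact ⟨Finset.mem_univ _, t'.2⟩
  rw [h1, Finset.card_product, Finset.card_product, h2, Finset.card_map, Finset.card_univ,
    Finset.card_univ, Fintype.card_fin, Fintype.card_fin, Finset.card_singleton, one_mul]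

/-- a changed free bit -/
lemma exists_bit {x y : Pos n b → ZMod 2} {U : Finset (Pos n b)}
    (hy : ∀ v, v ∉ U → y v = x v) (hne : y ≠ x) : ∃ v ∈ U, y v ≠ x v := by
  obtain ⟨e, he⟩ := Function.ne_iff.1 hne
  refine ⟨e, ?_, he⟩
  by_contra h
  exact he (hy e h)

lemma no1 {k : ℕ} (hk : 1 ≤ k) (hkb : k ≤ b) (z : Fin (2 ^ (b + 1))) (hz : (z : ℕ) = 2 ^ k) :
    ¬ IsSum (arr b (inst1 n k)) z := by
  have h2k : 2 ≤ 2 ^ k := by
    calc 2 = 2 ^ 1 := rfl
      _ ≤ 2 ^ k := Nat.pow_le_pow_right (by norm_num) hk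
  have hkb' : 2 ^ k ≤ 2 ^ b := Nat.pow_le_pow_right (by norm_num) hkb
  have ha : ∀ (r : Fin 2) (i : Fin n), inst1 n k r i < 2 ^ k := by
    intro r i
    unfold inst1
    split_ifs <;> omega
  rintro ⟨i, j, h⟩
  rw [entry_arr _ (fun r i => (ha r i).trans_le hkb'), entry_arr _ (fun r i => (ha r i).trans_le hkb'),
    hz] at h
  have h1 := ha 1 j
  have h2 : inst1 n k 0 i = 0 := by simp [inst1]
  omega

lemma yes1 {k : ℕ} (hk : 1 ≤ k) (hkb : k ≤ b) (hkn : 2 ^ k ≤ n + 1) (z : Fin (2 ^ (b + 1)))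
    (hz : (z : ℕ) = 2 ^ k) (y : Pos n b → ZMod 2)
    (hy : ∀ v, v ∉ U1 n b k → y v = arr b (inst1 n k) v) (hne : y ≠ arr b (inst1 n k)) :
    IsSum y z := by
  have hkb' : 2 ^ k ≤ 2 ^ b := Nat.pow_le_pow_right (by norm_num) hkb
  have ha : ∀ (r : Fin 2) (i : Fin n), inst1 n k r i < 2 ^ b := by
    intro r i
    have h2k : 2 ≤ 2 ^ k := by
      calc 2 = 2 ^ 1 := rfl
        _ ≤ 2 ^ k := Nat.pow_le_pow_right (by norm_num) hk
    unfold inst1
    split_ifs <;> omega
  obtain ⟨⟨r, i, t⟩, hv, hd⟩ := exists_bit hy hne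
  simp only [U1, Finset.mem_filter, Finset.mem_univ, true_and] at hv
  obtain ⟨rfl, ht⟩ := hv
  have hx0 : ∀ t, arr b (inst1 n k) ((0 : Fin 2), i, t) = 0 := by
    intro t
    simp [arr, inst1, enc]
  have hbit : y ((0 : Fin 2), i, t) = 1 := by
    rw [hx0] at hd
    have h01 : ∀ a : ZMod 2, a ≠ 0 → a = 1 := by decide
    exact h01 _ hd
  have hu0 : 0 < entry y 0 i := val_pos _ t hbit
  have huk : entry y 0 i < 2 ^ k := by
    apply val_lt
    intro t ht
    rw [hy ((0 : Fin 2), i, t) (by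
      simp only [U1, Finset.mem_filter, Finset.mem_univ, true_and]
      omega)]
    exact hx0 t
  have hlt : 2 ^ k - entry y 0 i - 1 < n := by omega
  refine ⟨i, ⟨2 ^ k - entry y 0 i - 1, hlt⟩, ?_⟩
  have h1 : entry y 1 ⟨2 ^ k - entry y 0 i - 1, hlt⟩ =
      entry (arr b (inst1 n k)) 1 ⟨2 ^ k - entry y 0 i - 1, hlt⟩ := by
    unfold entry
    congr 1
    funext t
    apply hy
    simp [U1]
  rw [h1, entry_arr _ ha, hz]
  have h2 : inst1 n k 1 ⟨2 ^ k - entry y 0 i - 1, hlt⟩ = 2 ^ k - entry y 0 i := by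
    unfold inst1
    rw [if_neg (by decide), if_pos (by simp only; omega)]
    simp only
    omega
  rw [h2]
  omega

lemma no2 (hnb : 2 * n ≤ 2 ^ b) (z : Fin (2 ^ (b + 1))) (hz : (z : ℕ) = 2 * n) :
    ¬ IsSum (arr b (inst2 n)) z := by
  have ha : ∀ (r : Fin 2) (i : Fin n), inst2 n r i < 2 ^ b := by
    intro r i
    have := i.2
    unfold inst2
    split_ifs <;> omega
  rintro ⟨i, j, h⟩
  rw [entry_arr _ ha, entry_arr _ ha, hz] at h
  have h1 : inst2 n 0 i = 2 * i := by simp [inst2]
  have h2 : inst2 n 1 j = 2 * j + 1 := by simp [inst2]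
  omega

/-- free bits of the second instance: the lowest bits of the entries of the first array -/
def U2 (n b : ℕ) : Finset (Pos n b) := univ.filter (fun v => v.1 = 0 ∧ (v.2.2 : ℕ) < 1)

lemma yes2 (hb : 1 ≤ b) (hnb : 2 * n ≤ 2 ^ b) (z : Fin (2 ^ (b + 1))) (hz : (z : ℕ) = 2 * n)
    (y : Pos n b → ZMod 2)
    (hy : ∀ v, v ∉ U2 n b → y v = arr b (inst2 n) v) (hne : y ≠ arr b (inst2 n)) :
    IsSum y z := by
  have ha : ∀ (r : Fin 2) (i : Fin n), inst2 n r i < 2 ^ b := by
    intro r i
    have := i.2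
    unfold inst2
    split_ifs <;> omega
  obtain ⟨b', rfl⟩ : ∃ b', b = b' + 1 := ⟨b - 1, by omega⟩
  obtain ⟨⟨r, i, t⟩, hv, hd⟩ := exists_bit hy hne
  simp only [U2, Finset.mem_filter, Finset.mem_univ, true_and] at hv
  obtain ⟨rfl, ht⟩ := hv
  have ht0 : t = 0 := Fin.ext (by simpa using ht)
  subst ht0
  have hx0 : arr (b' + 1) (inst2 n) ((0 : Fin 2), i, 0) = 0 := by
    unfold arr inst2 enc
    rw [if_pos rfl, if_neg]
    rw [Fin.val_zero, Nat.testBit_zero, decide_eq_true_eq]
    simp only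
    omega
  have hbit : y ((0 : Fin 2), i, 0) = 1 := by
    rw [hx0] at hd
    have h01 : ∀ a : ZMod 2, a ≠ 0 → a = 1 := by decide
    exact h01 _ hd
  have h1 : entry y 0 i = entry (arr (b' + 1) (inst2 n)) 0 i + 1 := by
    apply val_succ _ _ hx0 hbit
    intro t ht
    apply hy
    simp only [U2, Finset.mem_filter, Finset.mem_univ, true_and, not_lt]
    exact Nat.one_le_iff_ne_zero.2 (fun h => ht (Fin.ext h))
  have hin := i.2
  have hlt : n - 1 - i < n := by omega
  refine ⟨i, ⟨n - 1 - i, hlt⟩, ?_⟩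
  have h2 : entry y 1 ⟨n - 1 - i, hlt⟩ = entry (arr (b' + 1) (inst2 n)) 1 ⟨n - 1 - i, hlt⟩ := by
    unfold entry
    congr 1
    funext t
    apply hy
    simp [U2]
  rw [h1, h2, entry_arr _ ha, entry_arr _ ha, hz]
  have h3 : inst2 n 0 i = 2 * i := by simp [inst2]
  have h4 : inst2 n 1 ⟨n - 1 - i, hlt⟩ = 2 * (n - 1 - i) + 1 := by simp [inst2]
  rw [h3, h4]
  omega

lemma half2 (hb : 1 ≤ b) (hnb : 2 * n ≤ 2 ^ b) (y : Pos n b → ZMod 2)
    (hy : ∀ v, v ∉ U2 n b → y v = arr b (inst2 n) v) (i : Fin n) :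
    entry y 0 i = 2 * i ∨ entry y 0 i = 2 * i + 1 := by
  have ha : ∀ (r : Fin 2) (i : Fin n), inst2 n r i < 2 ^ b := by
    intro r i
    have := i.2
    unfold inst2
    split_ifs <;> omega
  obtain ⟨b', rfl⟩ : ∃ b', b = b' + 1 := ⟨b - 1, by omega⟩
  have hx0 : arr (b' + 1) (inst2 n) ((0 : Fin 2), i, 0) = 0 := by
    unfold arr inst2 enc
    rw [if_pos rfl, if_neg]
    rw [Fin.val_zero, Nat.testBit_zero, decide_eq_true_eq]
    simp only
    omega
  have hx : entry (arr (b' + 1) (inst2 n)) 0 i = 2 * i := by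
    rw [entry_arr _ ha]
    simp [inst2]
  have hoth : ∀ t : Fin (b' + 1), t ≠ 0 →
      y ((0 : Fin 2), i, t) = arr (b' + 1) (inst2 n) ((0 : Fin 2), i, t) := by
    intro t ht
    apply hy
    simp only [U2, Finset.mem_filter, Finset.mem_univ, true_and, not_lt]
    exact Nat.one_le_iff_ne_zero.2 (fun h => ht (Fin.ext h))
  have h01 : ∀ a : ZMod 2, a = 0 ∨ a = 1 := by decide
  rcases h01 (y ((0 : Fin 2), i, 0)) with h | h
  · left
    rw [← hx]
    unfold entry
    congr 1
    funext t
    by_cases ht : t = 0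
    · subst ht
      rw [h, hx0]
    · exact hoth t ht
  · right
    rw [← hx]
    exact val_succ _ _ hx0 h hoth

/-- the arrays have no repeated entries -/
def Distinct (x : Pos n b → ZMod 2) : Prop := ∀ k, Function.Injective (entry x k)

lemma distinct2 (hnb : 2 * n ≤ 2 ^ b) : Distinct (arr b (inst2 n)) := by
  have ha : ∀ (r : Fin 2) (i : Fin n), inst2 n r i < 2 ^ b := by
    intro r i
    have := i.2
    unfold inst2
    split_ifs <;> omega
  intro k i j h
  rw [entry_arr _ ha, entry_arr _ ha] at h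
  unfold inst2 at h
  apply Fin.ext
  split_ifs at h <;> omega

lemma distinct2' (hb : 1 ≤ b) (hnb : 2 * n ≤ 2 ^ b) (y : Pos n b → ZMod 2)
    (hy : ∀ v, v ∉ U2 n b → y v = arr b (inst2 n) v) : Distinct y := by
  intro k i j h
  fin_cases k
  · have h1 := half2 hb hnb y hy i
    have h2 := half2 hb hnb y hy j
    apply Fin.ext
    change entry y 0 i = entry y 0 j at h
    omega
  · have h1 : ∀ i : Fin n, entry y 1 i = entry (arr b (inst2 n)) 1 i := by
      intro i
      unfold entry
      congr 1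
      funext t
      apply hy
      simp [U2]
    change entry y 1 i = entry y 1 j at h
    rw [h1, h1] at h
    exact distinct2 hnb 1 h

lemma card_U2 (hb : 1 ≤ b) : (U2 n b).card = n := by
  have h := card_U1 (n := n) hb
  rw [mul_one] at h
  exact h

/-! ## Upper bounds -/

open Classical in
/-- `[entry i of the first array + entry j of the second array = z]` -/
lemma pair_poly (z : Fin (2 ^ (b + 1))) (t : Fin n × Fin n) :
    ∃ P : MvPolynomial (Pos n b) (ZMod 2), P.totalDegree ≤ 2 * b ∧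
      ∀ x, MvPolynomial.eval x P = if entry x 0 t.1 + entry x 1 t.2 = z then 1 else 0 := by
  obtain ⟨P, h1, h2⟩ := exists_poly
    ((univ : Finset (Fin b)).image (fun s => ((0 : Fin 2), t.1, s)) ∪
      (univ : Finset (Fin b)).image (fun s => ((1 : Fin 2), t.2, s)))
    (fun x => if entry x 0 t.1 + entry x 1 t.2 = z then (1 : ZMod 2) else 0) (by
      intro x y h
      have e1 : entry x 0 t.1 = entry y 0 t.1 := by
        unfold entry
        congr 1
        funext s
        exact h _ (Finset.mem_union_left _ (Finset.mem_image_of_mem _ (Finset.mem_univ _)))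
      have e2 : entry x 1 t.2 = entry y 1 t.2 := by
        unfold entry
        congr 1
        funext s
        exact h _ (Finset.mem_union_right _ (Finset.mem_image_of_mem _ (Finset.mem_univ _)))
      simp only [e1, e2])
  refine ⟨P, h1.trans ?_, h2⟩
  refine (Finset.card_union_le _ _).trans ?_
  have h3 := Finset.card_image_le (s := (univ : Finset (Fin b)))
    (f := fun s => (((0 : Fin 2), t.1, s) : Pos n b))
  have h4 := Finset.card_image_le (s := (univ : Finset (Fin b)))
    (f := fun s => (((1 : Fin 2), t.2, s) : Pos n b))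
  rw [Finset.card_univ, Fintype.card_fin] at h3 h4
  omega

lemma card_block {s : ℕ} (hs : 0 < s) (p : ℕ) :
    (univ.filter (fun c : Fin n => (c : ℕ) / s = p)).card ≤ s := by
  have h2 : (univ.filter (fun c : Fin n => (c : ℕ) / s = p)).card ≤
      (Finset.Ico (p * s) (p * s + s)).card := by
    apply Finset.card_le_card_of_injOn (fun c : Fin n => (c : ℕ))
    · intro c hc
      rw [Finset.mem_coe, Finset.mem_filter] at hc
      rw [Finset.mem_coe, Finset.mem_Ico, ← hc.2]
      beta_reduce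
      have h3 := Nat.div_add_mod (c : ℕ) s
      have h4 := Nat.mod_lt (c : ℕ) hs
      rw [mul_comm] at h3
      omega
    · intro c _ c' _ h
      exact Fin.ext h
  rw [Nat.card_Ico] at h2
  omega

open Classical in
/-- `0` if `z` is a sum of entries of the two blocks with the numbers `p`, `p'` -/
lemma block_poly {s : ℕ} (hs : 0 < s) (z : Fin (2 ^ (b + 1))) (p p' : ℕ) :
    ∃ P : MvPolynomial (Pos n b) (ZMod 2), P.totalDegree ≤ 2 * s * b ∧
      ∀ x, MvPolynomial.eval x P = if ∃ i j : Fin n, (i : ℕ) / s = p ∧ (j : ℕ) / s = p' ∧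
        entry x 0 i + entry x 1 j = z then 0 else 1 := by
  obtain ⟨P, h1, h2⟩ := exists_poly
    (({0} : Finset (Fin 2)) ×ˢ (univ.filter (fun c : Fin n => (c : ℕ) / s = p) ×ˢ
        (univ : Finset (Fin b))) ∪
      ({1} : Finset (Fin 2)) ×ˢ (univ.filter (fun c : Fin n => (c : ℕ) / s = p') ×ˢ
        (univ : Finset (Fin b))))
    (fun x => if ∃ i j : Fin n, (i : ℕ) / s = p ∧ (j : ℕ) / s = p' ∧
        entry x 0 i + entry x 1 j = z then (0 : ZMod 2) else 1) (by
      intro x y h
      have e1 : ∀ i : Fin n, (i : ℕ) / s = p → entry x 0 i = entry y 0 i := by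
        intro i hi
        unfold entry
        congr 1
        funext t
        apply h
        simp [hi]
      have e2 : ∀ i : Fin n, (i : ℕ) / s = p' → entry x 1 i = entry y 1 i := by
        intro i hi
        unfold entry
        congr 1
        funext t
        apply h
        simp [hi]
      have e3 : (∃ i j : Fin n, (i : ℕ) / s = p ∧ (j : ℕ) / s = p' ∧
          entry x 0 i + entry x 1 j = z) ↔ (∃ i j : Fin n, (i : ℕ) / s = p ∧ (j : ℕ) / s = p' ∧
          entry y 0 i + entry y 1 j = z) := by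
        constructor
        · rintro ⟨i, j, hi, hj, h⟩
          exact ⟨i, j, hi, hj, by rw [← e1 i hi, ← e2 j hj]; exact h⟩
        · rintro ⟨i, j, hi, hj, h⟩
          exact ⟨i, j, hi, hj, by rw [e1 i hi, e2 j hj]; exact h⟩
      simp only [e3])
  refine ⟨P, h1.trans ?_, h2⟩
  refine (Finset.card_union_le _ _).trans ?_
  simp only [Finset.card_product, Finset.card_singleton, one_mul, Finset.card_univ,
    Fintype.card_fin]
  have h3 := Nat.mul_le_mul_right b (card_block (n := n) hs p)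
  have h4 := Nat.mul_le_mul_right b (card_block (n := n) hs p')
  calc _ ≤ s * b + s * b := add_le_add h3 h4
    _ = _ := by ring

open Classical in
/-- **3SUM-Indexing: time times degree.** Two arrays of `n` numbers of `b` bits, given by their
bits; the query `z < 2 ^ (b + 1)` asks whether `z` is the sum of an entry of the first and an entry
of the second array. Random data structures with arbitrarily many cells of `w` bits, each bit being
(for given coins) a polynomial of degree at most `d` over `ZMod 2` in the bits of the arrays.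

(1) Let the answer no (`false`) never be wrong. For all `1 ≤ k ≤ b` with `2 ^ k ≤ n + 1` there are
arrays and a query, such that if the answer yes is wrong there with probability at most `ε`, the
expected number of probes there is at least `(1 - ε) n k / (d w)`.

(2) The same with `(1 - ε) n / (d w)` for arrays without repeated entries, if `2 n ≤ 2 ^ b`.

(3) With cells of degree at most `2 s b`, `(n / s + 1) ^ 2 / w + 1` probes are sufficient, without
errors.

(4) If the answer no may be wrong with probability `2 ^ (- w)` then one probe and `2 ^ (b + 1)` cells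
of degree `2 b` are sufficient, and the answer yes is never wrong. -/
theorem result (n b d w : ℕ) :
    (∀ k : ℕ, 1 ≤ k → k ≤ b → 2 ^ k ≤ n + 1 →
      ∃ (x : Pos n b → ZMod 2) (z : Fin (2 ^ (b + 1))), ¬ IsSum x z ∧
        ∀ (Ω A : Type) [Fintype Ω] (D : DS Ω (Pos n b) A (Fin (2 ^ (b + 1))) Bool w) (μ : Ω → ℝ),
          D.DegreeLE d → IsProb μ → (∀ ω y q, D.answer ω y q = false → ¬ IsSum y q) →
          ∀ ε : ℝ, ∑ ω ∈ univ.filter (fun ω => D.answer ω x z = true), μ ω ≤ ε →
            (1 - ε) * (n * k : ℕ) ≤ d * w * ∑ ω, μ ω * (D.probes ω x z : ℝ)) ∧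
    (1 ≤ b → 2 * n ≤ 2 ^ b →
      ∃ (x : Pos n b → ZMod 2) (z : Fin (2 ^ (b + 1))), Distinct x ∧ ¬ IsSum x z ∧
        ∀ (Ω A : Type) [Fintype Ω] (D : DS Ω (Pos n b) A (Fin (2 ^ (b + 1))) Bool w) (μ : Ω → ℝ),
          D.DegreeLE d → IsProb μ →
          (∀ ω y q, Distinct y → D.answer ω y q = false → ¬ IsSum y q) →
          ∀ ε : ℝ, ∑ ω ∈ univ.filter (fun ω => D.answer ω x z = true), μ ω ≤ ε →
            (1 - ε) * n ≤ d * w * ∑ ω, μ ω * (D.probes ω x z : ℝ)) ∧
    (∀ s : ℕ, 1 ≤ s → 1 ≤ w →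
      ∃ (A : Type) (D : DS Unit (Pos n b) A (Fin (2 ^ (b + 1))) Bool w), D.DegreeLE (2 * s * b) ∧
        ∀ (x : Pos n b → ZMod 2) (z : Fin (2 ^ (b + 1))),
          (D.answer () x z = true ↔ IsSum x z) ∧ D.probes () x z = (n / s + 1) ^ 2 / w + 1) ∧
    (∃ (Ω : Type) (_ : Fintype Ω)
      (D : DS Ω (Pos n b) (Fin (2 ^ (b + 1))) (Fin (2 ^ (b + 1))) Bool w),
      D.DegreeLE (2 * b) ∧ ∀ (x : Pos n b → ZMod 2) (z : Fin (2 ^ (b + 1))),
        (∀ ω, D.probes ω x z = 1) ∧ (∀ ω, D.answer ω x z = true → IsSum x z) ∧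
        (IsSum x z → 2 ^ w * (univ.filter (fun ω => D.answer ω x z = false)).card =
          Fintype.card Ω)) := by
  refine ⟨?_, ?_, ?_, ?_⟩
  · intro k hk hkb hkn
    have hlt : 2 ^ k < 2 ^ (b + 1) := Nat.pow_lt_pow_right (by norm_num) (by omega)
    refine ⟨arr b (inst1 n k), ⟨2 ^ k, hlt⟩, no1 hk hkb _ rfl, ?_⟩
    intro Ω A _ D μ hd hμ hno ε hε
    rw [← card_U1 (n := n) hkb]
    exact expect_bound D hd μ hμ IsSum hno _ _ _
      (fun y hy hne => yes1 hk hkb hkn _ rfl y hy hne) ε hε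
  · intro hb hnb
    have hlt : 2 * n < 2 ^ (b + 1) := by
      rw [pow_succ]
      have : 0 < 2 ^ b := by positivity
      omega
    refine ⟨arr b (inst2 n), ⟨2 * n, hlt⟩, distinct2 hnb, no2 hnb _ rfl, ?_⟩
    intro Ω A _ D μ hd hμ hno ε hε
    have h := expect_bound D hd μ hμ (fun y q => Distinct y ∧ IsSum y q)
      (fun ω y q h1 h2 => hno ω y q h2.1 h1 h2.2) (arr b (inst2 n)) ⟨2 * n, hlt⟩ (U2 n b)
      (fun y hy hne => ⟨distinct2' hb hnb y hy, yes2 hb hnb _ rfl y hy hne⟩) ε hε
    rw [card_U2 hb] at h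
    exact h
  · intro s hs hw
    choose P hP1 hP2 using fun (z : Fin (2 ^ (b + 1))) (p p' : ℕ) =>
      block_poly (n := n) (b := b) hs z p p'
    set M := n / s + 1 with hM
    refine ⟨_, table (fun z β => P z (β / M) (β % M)) w (M ^ 2 / w + 1),
      table_degree _ _ _ (fun z β => hP1 z _ _), ?_⟩
    intro x z
    refine ⟨?_, table_probes _ _ _ _ _⟩
    rw [table_answer _ hw]
    constructor
    · rintro ⟨β, -, hβ⟩
      rw [hP2] at hβ
      split_ifs at hβ with h
      · obtain ⟨i, j, -, -, h⟩ := h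
        exact ⟨i, j, h⟩
      · exact absurd hβ (by decide)
    · rintro ⟨i, j, h⟩
      have hi : (i : ℕ) / s < M := Nat.lt_succ_of_le (Nat.div_le_div_right i.2.le)
      have hj : (j : ℕ) / s < M := Nat.lt_succ_of_le (Nat.div_le_div_right j.2.le)
      refine ⟨(i : ℕ) / s * M + (j : ℕ) / s, ?_, ?_⟩
      · have h1 : (i : ℕ) / s * M + (j : ℕ) / s < M ^ 2 := by
          calc (i : ℕ) / s * M + (j : ℕ) / s < (i : ℕ) / s * M + M := by omega
            _ = ((i : ℕ) / s + 1) * M := by ring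
            _ ≤ M * M := Nat.mul_le_mul_right _ hi
            _ = M ^ 2 := by ring
        have h2 := Nat.div_add_mod (M ^ 2) w
        have h3 := Nat.mod_lt (M ^ 2) hw
        calc (i : ℕ) / s * M + (j : ℕ) / s < M ^ 2 := h1
          _ ≤ (M ^ 2 / w + 1) * w := by rw [add_mul, one_mul, mul_comm]; omega
      · rw [hP2, if_pos]
        have hMpos : 0 < M := Nat.succ_pos _
        have e1 : ((i : ℕ) / s * M + (j : ℕ) / s) / M = (i : ℕ) / s := by
          rw [mul_comm, Nat.mul_add_div hMpos, Nat.div_eq_of_lt hj, add_zero]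
        have e2 : ((i : ℕ) / s * M + (j : ℕ) / s) % M = (j : ℕ) / s := by
          rw [mul_comm, Nat.mul_add_mod, Nat.mod_eq_of_lt hj]
        rw [e1, e2]
        exact ⟨i, j, rfl, rfl, h⟩
  · choose P hP1 hP2 using fun (z : Fin (2 ^ (b + 1))) (t : Fin n × Fin n) =>
      pair_poly (n := n) (b := b) z t
    obtain ⟨Ω, inst, D, h1, h2⟩ := exists_sketch P w hP1
    refine ⟨Ω, inst, D, h1, fun x z => ?_⟩
    have hev : ∀ t, MvPolynomial.eval x (P z t) ≠ 0 ↔ entry x 0 t.1 + entry x 1 t.2 = z := by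
      intro t
      rw [hP2]
      split_ifs with h <;> simp [h]
    obtain ⟨h3, h4, h5⟩ := h2 x z
    refine ⟨h3, fun ω h => ?_, fun h => ?_⟩
    · obtain ⟨t, ht⟩ := h4 ω h
      exact ⟨t.1, t.2, (hev t).1 ht⟩
    · obtain ⟨i, j, h⟩ := h
      exact h5 ⟨(i, j), (hev (i, j)).2 h⟩

end Pool.Agent.Results.MP_e016b3_lc.DegreeMemory
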