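import Pool.Agent.R563.TP.Core
import Pool.Agent.R563.TP.Good
import Pool.Agent.R563.TP.Par
import Pool.Agent.R563.TP.Sum

set_option autoImplicit false

/-!
# 3SUM-Indexing: space `n ^ 2 / (2 ^ (6 w) polylog n)` for two adaptive probes of `w` bits

Data structures in the cell probe model: `S` cells with `W` possible contents each (`W = 2 ^ w` for
words of `w` bits), arbitrary preprocessing, adaptive queries, arbitrary computation (also not
uniform), randomised. For all arrays of `n` integers from `{0, …, n ^ 3}` and all `z` it is decided
with at most two probes whether `z` is the sum of an element of the first array and an element of the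
second array, correctly with probability at least `1 / 2 + δ`. Then

  `δ ^ 6 n ^ 2 ≤ 10 ^ 13 S W ^ 6 (log₂ (n / δ)) ^ 6`.

So truly subquadratic space and two probes are impossible for words of `o(log n)` bits, and
the space is `Ω~(n ^ 2)` for words of `O(log log n)` bits. The best bound for two probes so far was the
bound `n ^ (3 / 2)` of cell sampling (MultiProbeLowerBound).

Proof. Let `u` be a little more than `k ^ 2 / S`, with `k u ≤ n`. The first array consists of the
numbers `2 u i + e i`, `i < k`, for a random map `e` from `{0, …, k - 1}` to `{0, …, u - 1}`, the
second one of the numbers `2 u k j + (u - 1 - c)`, `j < k`, with `c` in a random subset `Y j` of the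
universe `{0, …, u - 1}`. The number `2 u (i + k j) + (u - 1)` is a sum iff `e i` is in `Y j`. For
these `k ^ 2` queries the number of correct answers minus the number of wrong answers is a bilinear
form: the vectors are the indicator vectors of the contents of the memory, the matrix is a sum of
matrices with random signs, one for each class `(j, e i)` of queries. We estimate the norm of this
matrix, with the rows and columns weighted by the number of queries which use a cell, by the trace of
a power of order `log n`: the sequences of classes in which every class occurs an even number of
times are few, since (for most maps `e`) only few queries of one class use the same cell. No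
independence of the answers of the `k ^ 2` queries is needed (there are only `k u` random bits).
-/

namespace Pool.Agent.Results.MP_e016b3_lc.TwoShortProbes

open Pool.Agent.R563.TP

/-- Every randomised data structure with `S` cells with `W` possible contents each which decides
3SUM-Indexing for arrays of `n` integers from `{0, …, n ^ 3}` with two adaptive probes, with
probability at least `1 / 2 + δ`, satisfies
`δ ^ 6 n ^ 2 ≤ 10 ^ 13 S W ^ 6 (log₂ (n / δ)) ^ 6`. -/
theorem result (n S W : ℕ) (δ : ℝ) (hn : 2 ≤ n) (hS : 1 ≤ S) (hW : 1 ≤ W) (hδ : 0 < δ)
    (hδ2 : δ ≤ 1 / 2) (Ω : Type) [Fintype Ω] (p : Ω → ℝ) (D : Ω → SumDS n S W)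
    (hD : SumSolves p D δ) :
    δ ^ 6 * (n : ℝ) ^ 2 ≤ 10 ^ 13 * (S : ℝ) * (W : ℝ) ^ 6 * (Real.logb 2 (n / δ)) ^ 6 :=
  sum (par good (core mom)) n S W δ hn hS hW hδ hδ2 Ω p D hD

end Pool.Agent.Results.MP_e016b3_lc.TwoShortProbes
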