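import Pool.Agent.R563.XT.Lin
import Pool.Agent.R563.XT.Cor
import Pool.Agent.R563.XT.Core
import Pool.Agent.R563.XT.Win
import Pool.Agent.R563.XT.Dis
import Pool.Agent.R563.XT.Sum

set_option autoImplicit false

/-!
# 3SUM-Indexing: quadratic space for tables of exclusive ors of answers

The data structures of the theorem store bits. Every bit is the exclusive or of

* the answers to the queries `z` in a set `Q` of integers (any set, of any size; it is fixed in advance),
* an arbitrary function of the first array,
* an arbitrary function of the second array.

The queries are adaptive and may be computed in any way; they read at most `t` bits. The data structure
may be random, and has to answer every query correctly with probability at least `1 / 2 + δ` for all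
arrays. Only the `s` bits with `Q ≠ ∅` count as space, so that the bits which depend on one of the
arrays alone are free: any separate preprocessing of the two arrays, of any size, is allowed.
This model contains the table of all answers, all linear compressions of this table over the field with
two elements (exclusive ors of answers, as in Bloomier filters, retrieval structures, error-correcting
encodings), and the separate sorting and hashing of the arrays. We show

  `δ ^ 9 n ^ 2 ≤ 100 * 256 ^ t (s + 1)`.

So a truly subquadratic space requires `t = Ω(log n)` bit probes, even for success probability
`1 / 2 + n ^ (-o(1))`.

Proof. The hard arrays: the first one has one element in each of `k` blocks, at the position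
`e i < h` of the block, the second one has the elements of a subset `Y j` of an interval of length
`v = h ^ 2` in each of `k` larger blocks; here `k ≈ n / v`, and all sums of the pair `(i, j)` of blocks are in
an own interval. The exclusive or of answers in the intervals of the pairs is a product of the signs
of the bits of the sets `Y j` in windows at the positions `e i`. By a polynomial identity (the product of
`X ^ d - 1`, `d < h`, over the field with two elements) there is a set `μ` of integers
such that for every set `w` with an odd number of elements in `μ` the `h` windows of `w` are
different; so the exclusive or of the answers in `w` has discrepancy at most `1 / √h`, and the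
exclusive or of any set of answers with an odd number of elements in `μ` in some interval also does.
By linear algebra, for at most `s` pairs `(i, j)` the answer to the query of this pair can be changed by
bits of the memory to a set with an even number of elements in `μ` in all intervals. For the other pairs
every exclusive or of the answer and of any bits of the memory has discrepancy at most `1 / √h`,
and so a decision tree of depth `t` has the advantage `2 ^ t / √h` at most.
-/

namespace Pool.Agent.Results.MP_e016b3_lc.XorTables

open Pool.Agent.R563.XT

/-- A random data structure for two arrays of `n` integers from `{0, …, n ^ 3}` whose bits are exclusive
ors of answers, of a function of the first array and of a function of the second array, which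
answers every query correctly, reading at most `t` bits, with probability at least `1 / 2 + δ`, and in
which answers enter at most `s` bits, satisfies `δ ^ 9 n ^ 2 ≤ 100 * 256 ^ t * (s + 1)`. -/
theorem result (n t c s : ℕ) (δ : ℝ) (hδ : 0 < δ) (hδ2 : δ ≤ 1 / 2)
    (Ω : Type) [Fintype Ω] (p : Ω → ℝ) (D : Ω → XorSumDS n c)
    (hs : ∀ ω, (D ω).space ≤ s) (hD : SumSolves p D t δ) :
    δ ^ 9 * (n : ℝ) ^ 2 ≤ 100 * 256 ^ t * ((s : ℝ) + 1) :=
  sum (core lin cor) (dis win) n t c s δ hδ hδ2 Ω p D hs hD

end Pool.Agent.Results.MP_e016b3_lc.XorTables
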